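import Pool.Agent.Results.MP_42948a_nt.ShortClassIntervals
import Pool.Agent.V11326.WD
import Pool.Agent.V11326.WZ

/-!
# Chowla's bound for ALL moduli in windows around a thin sequence and a positive proportion of the classes in very short
intervals

Let `0 < ε, η < 1`. There are `c, κ > 0` with the following property. Let `v ≥ 1` be a sequence with exponent of convergence
at most `τ` (for `v_n = b ^ n` it is `0`, for `v_n = n ^ a` it is `1 / a`), `θ < 1`, and let `B_n ⊆ [0, 1]` be any sets of at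
most `v_n ^ κ` numbers. For all `α > 0` outside a set of Hausdorff dimension at most `(1 - κ + τ) / (1 - θ)`, all large `n`,
ALL moduli `d` with `|d - α v_n| ≤ v_n ^ θ` and ALL `β ∈ B_n`: at least `c (φ(d) / d) d ^ η` of the integers `a` of the
interval `(β d, β d + d ^ η]` are prime to `d` and have `p(d, a) < d ^ (1 + ε)`.
-/

set_option autoImplicit false

open Finset Filter Topology

namespace Pool.Agent.Results.MP_42948a_nt.AllModuliInWindows

/-- the exponent of convergence of the sequence `v` is at most `τ` -/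
def ExpLe (v : ℕ → ℝ) (τ : ℝ) : Prop := ∀ t : ℝ, τ < t → Summable (fun n : ℕ => (v n) ^ (-t))

/-- the integers `a` in `(β d, β d + d ^ η]` prime to `d` for which some prime `p ≡ a (mod d)` is less than `d ^ (1 + ε)` -/
def Classes (ε η β : ℝ) (d : ℕ) : Set ℕ :=
  {a : ℕ | β * d < a ∧ (a : ℝ) ≤ β * d + (d : ℝ) ^ η ∧ a.Coprime d ∧
    ∃ p : ℕ, p.Prime ∧ p ≡ a [MOD d] ∧ (p : ℝ) < (d : ℝ) ^ (1 + ε)}

/-- **Theorem.** Let `0 < ε, η < 1`. There are `c > 0` and `0 < κ ≤ 1` such that for every sequence `v ≥ 1` of exponent of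
convergence at most `τ`, every `θ < 1` and all finite sets `B_n ⊆ [0, 1]` of at most `v_n ^ κ` numbers there is a set `E` of
Hausdorff dimension at most `(1 - κ + τ) / (1 - θ)` with: for all `α > 0` outside `E`, all large `n`, ALL moduli `d` with
`|d - α v_n| ≤ v_n ^ θ` and ALL `β ∈ B_n` at least `c (φ(d) / d) d ^ η` of the integers `a` in `(β d, β d + d ^ η]` are
prime to `d` and are such that a prime `p ≡ a (mod d)` is less than `d ^ (1 + ε)`. The sequences `v_n = (n + 1) ^ a` and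
`v_n = b ^ n` have exponent of convergence at most `1 / a` and `0`. -/
theorem result :
    (∀ ε η : ℝ, 0 < ε → ε < 1 → 0 < η → η < 1 → ∃ c κ : ℝ, 0 < c ∧ 0 < κ ∧ κ ≤ 1 ∧
      ∀ (v : ℕ → ℝ) (τ θ : ℝ), (∀ n, 1 ≤ v n) → 0 ≤ τ → ExpLe v τ → θ < 1 →
      ∀ B : ℕ → Finset ℝ, (∀ n, ∀ β ∈ B n, 0 ≤ β ∧ β ≤ 1) → (∀ n, ((B n).card : ℝ) ≤ (v n) ^ κ) →
      ∃ E : Set ℝ, dimH E ≤ ENNReal.ofReal ((1 - κ + τ) / (1 - θ)) ∧ ∀ α : ℝ, 0 < α → α ∉ E →
        ∃ n₀ : ℕ, ∀ n : ℕ, n₀ ≤ n → ∀ d : ℕ, |(d : ℝ) - α * v n| ≤ (v n) ^ θ → ∀ β ∈ B n,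
          c * ((Nat.totient d : ℝ) / d) * (d : ℝ) ^ η ≤ ((Classes ε η β d).ncard : ℝ)) ∧
    (∀ a : ℝ, 0 < a → ExpLe (fun n : ℕ => ((n : ℝ) + 1) ^ a) (1 / a)) ∧
    (∀ b : ℝ, 1 < b → ExpLe (fun n : ℕ => b ^ n) 0) := by
  classical
  refine ⟨?_, fun κ hκ => Pool.Agent.Y854.GM.expLe_pow κ hκ, fun b hb => Pool.Agent.Y854.GM.expLe_geom b hb⟩
  intro ε η hε hε1 hη hη1
  obtain ⟨c, κ₀, hc, hκ₀, D₀, hD⟩ := Pool.Agent.Results.MP_42948a_nt.ShortClassIntervals.result ε η hε hε1 hη hη1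
  have hm0 : 0 < min κ₀ 1 := lt_min hκ₀ one_pos
  have hm1 : min κ₀ 1 ≤ 1 := min_le_right _ _
  obtain ⟨κ, hκ⟩ : ∃ κ : ℝ, κ = min κ₀ 1 / 2 := ⟨_, rfl⟩
  refine ⟨c, κ, hc, by rw [hκ]; linarith, by rw [hκ]; linarith, fun v τ θ hv hτ hE hθ1 B hB hBc => ?_⟩
  obtain ⟨E, hE1, hE2⟩ := Pool.Agent.Y854.GM.windowsV
    (fun n => {d : ℕ | ∃ β ∈ B n, ((Classes ε η β d).ncard : ℝ) < c * ((Nat.totient d : ℝ) / d) * (d : ℝ) ^ η})
    (fun _ (d : ℕ) => (d : ℝ)) (v := v) (s := 1 - κ) (τ := τ) (θ := θ) 1 hv hτ hE (by rw [hκ]; linarith) hθ1 (by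
      intro A ε' hε'
      obtain ⟨M, hM0, hM⟩ := Pool.Agent.V11326.WD.dyadic (max D₀ 1) hε'
      have hA : (0 : ℝ) ≤ A := Nat.cast_nonneg A
      refine ⟨M * ((A : ℝ) + 1) ^ ((1 - 2 * κ) + ε'), 0, fun n _ => ?_⟩
      have hv1 := hv n
      have hv0 : 0 < v n := by linarith
      have hX1 : 1 ≤ ((A : ℝ) + 1) * v n := by nlinarith
      refine ⟨(Set.finite_Icc 0 ⌊((A : ℝ) + 1) * v n⌋₊).subset fun t ht => ⟨Nat.zero_le _, Nat.le_floor ht.2⟩, ?_⟩
      have hW : 1 ≤ (v n) ^ κ := Real.one_le_rpow hv1 (by rw [hκ]; linarith)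
      have key := hM (1 - 2 * κ) (by rw [hκ]; linarith)
        {d : ℕ | ∃ β ∈ B n, ((Classes ε η β d).ncard : ℝ) < c * ((Nat.totient d : ℝ) / d) * (d : ℝ) ^ η}
        ((v n) ^ κ) hW (by
          intro D hDD
          have hD1 : (1 : ℝ) ≤ D := by exact_mod_cast (le_max_right _ _).trans hDD
          have h1 : ∀ β : ℝ, ∃ F : Finset ℕ, (0 ≤ β → β ≤ 1 → (F.card : ℝ) ≤ (D : ℝ) ^ (1 - 2 * κ) ∧
              ∀ d : ℕ, D < d → d < 2 * D → d ∉ F →
                c * ((Nat.totient d : ℝ) / d) * (d : ℝ) ^ η ≤ ((Classes ε η β d).ncard : ℝ)) := by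
            intro β
            by_cases hβ : 0 ≤ β ∧ β ≤ 1
            · obtain ⟨F, hF1, hF2⟩ := hD D ((le_max_left _ _).trans hDD) β hβ.1 hβ.2
              refine ⟨F, fun _ _ => ⟨hF1.trans (Real.rpow_le_rpow_of_exponent_le hD1 ?_), hF2⟩⟩
              rw [hκ]
              linarith [min_le_left κ₀ 1]
            · exact ⟨∅, fun h0 h1 => absurd ⟨h0, h1⟩ hβ⟩
          choose F hF using h1
          have hsub : {d : ℕ | d ∈ {d : ℕ | ∃ β ∈ B n, ((Classes ε η β d).ncard : ℝ) <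
              c * ((Nat.totient d : ℝ) / d) * (d : ℝ) ^ η} ∧ D < d ∧ d < 2 * D} ⊆
              (((B n).biUnion F : Finset ℕ) : Set ℕ) := by
            rintro d ⟨⟨β, hβ, hlt⟩, hd1, hd2⟩
            rw [mem_coe, mem_biUnion]
            refine ⟨β, hβ, ?_⟩
            by_contra hdF
            exact absurd ((hF β (hB n β hβ).1 (hB n β hβ).2).2 d hd1 hd2 hdF) (not_le.2 hlt)
          have h2 := Set.ncard_le_ncard hsub (Finset.finite_toSet _)
          rw [Set.ncard_coe_finset] at h2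
          have h3 : (((B n).biUnion F).card : ℝ) ≤ ((B n).card : ℝ) * (D : ℝ) ^ (1 - 2 * κ) := by
            have h4 : ((B n).biUnion F).card ≤ ∑ β ∈ B n, (F β).card := card_biUnion_le
            calc (((B n).biUnion F).card : ℝ) ≤ ((∑ β ∈ B n, (F β).card : ℕ) : ℝ) := by exact_mod_cast h4
              _ = ∑ β ∈ B n, ((F β).card : ℝ) := by push_cast; rfl
              _ ≤ ∑ β ∈ B n, (D : ℝ) ^ (1 - 2 * κ) := sum_le_sum fun β hβ => (hF β (hB n β hβ).1 (hB n β hβ).2).1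
              _ = ((B n).card : ℝ) * (D : ℝ) ^ (1 - 2 * κ) := by rw [sum_const, nsmul_eq_mul]
          calc _ ≤ (((B n).biUnion F).card : ℝ) := by exact_mod_cast h2
            _ ≤ ((B n).card : ℝ) * (D : ℝ) ^ (1 - 2 * κ) := h3
            _ ≤ (v n) ^ κ * (D : ℝ) ^ (1 - 2 * κ) :=
                mul_le_mul_of_nonneg_right (hBc n) (Real.rpow_nonneg (by linarith) _))
        (((A : ℝ) + 1) * v n) hX1
      refine key.trans (le_of_eq ?_)
      rw [Real.mul_rpow (by positivity) hv0.le]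
      have e1 : (v n) ^ (1 - κ + ε') = (v n) ^ κ * (v n) ^ ((1 - 2 * κ) + ε') := by
        rw [← Real.rpow_add hv0]
        congr 1
        ring
      rw [e1]
      ring)
  refine ⟨E, hE1, fun α hα hαE => ?_⟩
  obtain ⟨n₀, hn⟩ := hE2 α hα hαE
  refine ⟨n₀, fun n hn1 d hw β hβ => not_lt.1 fun hcon => ?_⟩
  have := hn n hn1 d ⟨β, hβ, hcon⟩
  rw [one_mul] at this
  exact absurd hw (not_le.2 this)

end Pool.Agent.Results.MP_42948a_nt.AllModuliInWindows
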