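import Pool.Agent.Results.MP_42948a_nt.ShortClassIntervals
import Pool.Agent.V1172.PW.Eng
import Pool.Agent.V1172.PW.Dyad

/-!
# Chowla's bound for a positive proportion of the classes in short intervals, for all moduli in residue classes

Let `0 < ε, η < 1`. There are `c > 0` and `0 < κ ≤ 1` such that for every prime `q`, `σ > 0` and countable set of numbers
`β_j ∈ [0, 1]` there is a set `E` of `q`-adic integers of Hausdorff dimension at most `(1 - κ) / σ` (`ℤ_q` has dimension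
one, so `σ < 1` is allowed) such that for all `α ∈ ℤ_q` outside `E`, all `j` and all large `T`, for ALL moduli `d ≤ T` with
`|d - α|_q ≤ T ^ (-σ)`, that is, in the residue class of `α` modulo the least `q ^ f ≥ T ^ σ`: at least
`c (φ(d)/d) d ^ η` of the integers `a ∈ (β_j d, β_j d + d ^ η]` are prime to `d` and have a prime `p ≡ a (mod d)` with
`p < d ^ (1 + ε)`.
-/

set_option autoImplicit false

open Finset

namespace Pool.Agent.Results.MP_42948a_nt.ModuliInResidueClasses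

/-- the integers `a ∈ (β d, β d + d ^ η]` prime to `d` for which the least prime `≡ a (mod d)` is less than
`d ^ (1 + ε)` -/
def Classes (ε η β : ℝ) (d : ℕ) : Set ℕ :=
  {a : ℕ | β * d < a ∧ (a : ℝ) ≤ β * d + (d : ℝ) ^ η ∧ a.Coprime d ∧
    ∃ p : ℕ, p.Prime ∧ p ≡ a [MOD d] ∧ (p : ℝ) < (d : ℝ) ^ (1 + ε)}

/-- **Theorem.** -/
theorem result (ε η : ℝ) (hε : 0 < ε) (hε1 : ε < 1) (hη : 0 < η) (hη1 : η < 1) :
    ∃ c κ : ℝ, 0 < c ∧ 0 < κ ∧ κ ≤ 1 ∧ ∀ β : ℕ → ℝ, (∀ j, 0 ≤ β j ∧ β j ≤ 1) →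
      ∀ (q : ℕ) [Fact q.Prime] (σ : ℝ), 0 < σ →
      ∃ E : Set ℤ_[q], dimH E ≤ ENNReal.ofReal ((1 - κ) / σ) ∧ ∀ α : ℤ_[q], α ∉ E → ∀ j : ℕ,
        ∃ T₀ : ℝ, ∀ T : ℝ, T₀ ≤ T → ∀ d : ℕ, (d : ℝ) ≤ T → ‖(d : ℤ_[q]) - α‖ ≤ T ^ (-σ) →
          c * ((Nat.totient d : ℝ) / d) * (d : ℝ) ^ η ≤ ((Classes ε η (β j) d).ncard : ℝ) := by
  classical
  obtain ⟨c, κ₀, hc, hκ₀, D₀, hD⟩ := Pool.Agent.Results.MP_42948a_nt.ShortClassIntervals.result ε η hε hε1 hη hη1
  have hm0 : 0 < min κ₀ 1 := lt_min hκ₀ one_pos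
  have hm1 : min κ₀ 1 ≤ 1 := min_le_right _ _
  obtain ⟨κ, hκ⟩ : ∃ κ : ℝ, κ = min κ₀ 1 / 2 := ⟨_, rfl⟩
  have hκ0 : 0 < κ := by rw [hκ]; linarith
  refine ⟨c, κ, hc, hκ0, by rw [hκ]; linarith, fun β hβ q hq σ hσ => ?_⟩
  obtain ⟨M, hM0, hM⟩ := Pool.Agent.V1172.PW.dyadic (max D₀ 1) hκ0
  obtain ⟨E, hE1, hE2⟩ := Pool.Agent.V1172.PW.nats q (ι := ℕ)
    (fun j => {d : ℕ | ((Classes ε η (β j) d).ncard : ℝ) < c * ((Nat.totient d : ℝ) / d) * (d : ℝ) ^ η})
    (s := 1 - κ) (by rw [hκ]; linarith) (fun j => by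
      refine ⟨M * 1, fun X hX => ?_⟩
      have key := hM (1 - 2 * κ) (by rw [hκ]; linarith)
        {d : ℕ | ((Classes ε η (β j) d).ncard : ℝ) < c * ((Nat.totient d : ℝ) / d) * (d : ℝ) ^ η} 1 le_rfl (by
          intro D hDD
          have hD1 : (1 : ℝ) ≤ D := by exact_mod_cast (le_max_right _ _).trans hDD
          obtain ⟨F, hF1, hF2⟩ := hD D ((le_max_left _ _).trans hDD) (β j) (hβ j).1 (hβ j).2
          have hsub : {d : ℕ | d ∈ {d : ℕ | ((Classes ε η (β j) d).ncard : ℝ) <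
              c * ((Nat.totient d : ℝ) / d) * (d : ℝ) ^ η} ∧ D < d ∧ d < 2 * D} ⊆ ((F : Finset ℕ) : Set ℕ) := by
            rintro d ⟨hlt, hd1, hd2⟩
            rw [mem_coe]
            by_contra hdF
            exact absurd (hF2 d hd1 hd2 hdF) (not_le.2 hlt)
          have h2 := Set.ncard_le_ncard hsub (Finset.finite_toSet _)
          rw [Set.ncard_coe_finset] at h2
          calc _ ≤ (F.card : ℝ) := by exact_mod_cast h2
            _ ≤ (D : ℝ) ^ (1 - κ₀) := hF1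
            _ ≤ 1 * (D : ℝ) ^ (1 - 2 * κ) := by
                rw [one_mul]
                refine Real.rpow_le_rpow_of_exponent_le hD1 ?_
                rw [hκ]
                linarith [min_le_left κ₀ 1]) X hX
      refine key.trans (le_of_eq ?_)
      congr 2
      ring) hσ
  refine ⟨E, hE1, fun α hαE j => ?_⟩
  obtain ⟨T₀, hT⟩ := hE2 α hαE j
  exact ⟨T₀, fun T hT1 d hd hw => not_lt.1 fun hcon => hT T hT1 d hd hw hcon⟩

end Pool.Agent.Results.MP_42948a_nt.ModuliInResidueClasses
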