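import Pool.Agent.Results.MP_42948a_nt.ShortClassIntervals
import Pool.Agent.V11326.WD
import Pool.Agent.V11001.KM.Near

/-!
# Chowla's bound for ALL moduli near the powers of almost every real number and a positive proportion of the classes in
very short intervals

Let `0 < ε, η < 1`. There are `c, κ > 0` with the following property. Let `ν n / log n → ∞`, for example `ν n = n`, let
`θ < 1` and let `Q ⊆ [0, 1]` be countable. For all real `z > 1` outside a set of Hausdorff dimension at most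
`(1 - κ) / (1 - θ)`, all `β ∈ Q` and ALL large moduli `d` with `|d - b z ^ (ν n)| ≤ z ^ (θ ν n)` for some `n` at least
`c (φ(d) / d) d ^ η` of the integers `a` of the interval `(β d, β d + d ^ η]` are prime to `d` and have
`p(d, a) < d ^ (1 + ε)`.
-/

set_option autoImplicit false

open Finset Filter Topology

namespace Pool.Agent.Results.MP_42948a_nt.ModuliNearPowers

open Pool.Agent.V11001.KM

/-- the integers `a` in `(β d, β d + d ^ η]` prime to `d` for which some prime `p ≡ a (mod d)` is less than `d ^ (1 + ε)` -/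
def Classes (ε η β : ℝ) (d : ℕ) : Set ℕ :=
  {a : ℕ | β * d < a ∧ (a : ℝ) ≤ β * d + (d : ℝ) ^ η ∧ a.Coprime d ∧
    ∃ p : ℕ, p.Prime ∧ p ≡ a [MOD d] ∧ (p : ℝ) < (d : ℝ) ^ (1 + ε)}

/-- the moduli with few such classes -/
def Few (c ε η β : ℝ) : Set ℕ :=
  {d : ℕ | ((Classes ε η β d).ncard : ℝ) < c * ((Nat.totient d : ℝ) / d) * (d : ℝ) ^ η}

/-- **Theorem.** Let `0 < ε, η < 1`. There are `c > 0` and `0 < κ ≤ 1` such that for all `ν` with `ν n / log n → ∞`, all
countable sets `U` of real numbers and `Q` of numbers in `[0, 1]` and all `θ < 1` there is a set `E` of Hausdorff dimension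
at most `(1 - κ) / (1 - θ)` with: for all `z > 1` outside `E`, all positive `b` in `U` and all `β` in `Q` there is `d₀` such
that for ALL moduli `d ≥ d₀` with `|d - b z ^ (ν n)| ≤ z ^ (θ ν n)` for some `n` at least `c (φ(d) / d) d ^ η` of the
integers `a` in `(β d, β d + d ^ η]` are prime to `d` and are such that a prime `p ≡ a (mod d)` is less than
`d ^ (1 + ε)`. -/
theorem result (ε η : ℝ) (hε : 0 < ε) (hε1 : ε < 1) (hη : 0 < η) (hη1 : η < 1) :
    ∃ c κ : ℝ, 0 < c ∧ 0 < κ ∧ κ ≤ 1 ∧ ∀ ν : ℕ → ℝ, Fast ν → ∀ U : Set ℝ, U.Countable → ∀ Q : Set ℝ, Q.Countable →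
      (∀ β ∈ Q, 0 ≤ β ∧ β ≤ 1) → ∀ θ : ℝ, θ < 1 →
      ∃ E : Set ℝ, dimH E ≤ ENNReal.ofReal ((1 - κ) / (1 - θ)) ∧ ∀ z : ℝ, 1 < z → z ∉ E → ∀ b ∈ U, 0 < b →
        ∀ β ∈ Q, ∃ d₀ : ℝ, ∀ d : ℕ, d₀ ≤ d → Near ν θ b z d →
          c * ((Nat.totient d : ℝ) / d) * (d : ℝ) ^ η ≤ ((Classes ε η β d).ncard : ℝ) := by
  classical
  obtain ⟨c, κ₀, hc, hκ₀, D₀, hD⟩ := Pool.Agent.Results.MP_42948a_nt.ShortClassIntervals.result ε η hε hε1 hη hη1
  have hm1 : min κ₀ 1 ≤ 1 := min_le_right _ _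
  refine ⟨c, min κ₀ 1, hc, lt_min hκ₀ one_pos, hm1, fun ν hν U hU Q hQ hQ1 θ hθ => ?_⟩
  have hcQ : Countable Q := hQ.to_subtype
  obtain ⟨E, h1, h2⟩ := family_threshold (fun d : ℕ => (d : ℝ)) hν (s := 1 - min κ₀ 1) (by linarith) hθ U hU
    (J := Q) (fun β => Few c ε η β) (fun β ε' hε' => by
      obtain ⟨M, hM0, hM⟩ := Pool.Agent.V11326.WD.dyadic (max D₀ 1) hε'
      refine ⟨M, fun X hX => ⟨?_, ?_⟩⟩
      · exact (Set.finite_Icc 0 ⌊X⌋₊).subset fun t ht => ⟨Nat.zero_le _, Nat.le_floor ht.2⟩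
      · have key := hM (1 - min κ₀ 1) (by linarith) (Few c ε η β) 1 le_rfl (by
          intro D hDD
          have hD1 : (1 : ℝ) ≤ D := by exact_mod_cast (le_max_right _ _).trans hDD
          obtain ⟨F, hF1, hF2⟩ := hD D ((le_max_left _ _).trans hDD) β (hQ1 β β.2).1 (hQ1 β β.2).2
          have hsub : {d : ℕ | d ∈ Few c ε η β ∧ D < d ∧ d < 2 * D} ⊆ (F : Set ℕ) := by
            rintro d ⟨hlt, hd1, hd2⟩
            by_contra hdF
            exact absurd (hF2 d hd1 hd2 hdF) (not_le.2 hlt)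
          have h2 := Set.ncard_le_ncard hsub (Finset.finite_toSet _)
          rw [Set.ncard_coe_finset] at h2
          calc _ ≤ (F.card : ℝ) := by exact_mod_cast h2
            _ ≤ (D : ℝ) ^ (1 - κ₀) := hF1
            _ ≤ (D : ℝ) ^ (1 - min κ₀ 1) :=
                Real.rpow_le_rpow_of_exponent_le hD1 (by linarith [min_le_left κ₀ 1])
            _ = 1 * (D : ℝ) ^ (1 - min κ₀ 1) := (one_mul _).symm) X hX
        rwa [mul_one] at key)
  refine ⟨E, h1, fun z hz hzE b hb hb0 β hβ => ?_⟩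
  obtain ⟨d₀, h3⟩ := h2 z hz hzE b hb hb0 ⟨β, hβ⟩
  refine ⟨d₀, fun d hd hn => ?_⟩
  by_contra hcon
  push Not at hcon
  exact absurd (h3 d hcon hn) (not_lt.2 hd)

end Pool.Agent.Results.MP_42948a_nt.ModuliNearPowers
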